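import Pool.Agent.Helper4.HZ.Goals2

/-!
# MP_af40fb_al, project HZ, packet KOD
-/

namespace Pool.Agent.Helper13.HZ

open Pool.Agent.Helper4.HZ

/-- comparison of `Z` with a series over parameters -/
theorem Z_le_of_image {ι : Type} (s : ℝ) (A : Set ℕ) (g : ι → ℕ) (c : ι → ENNReal)
    (h : ∀ m ∈ A, ∃ x, g x = m ∧ ENNReal.ofReal (((m : ℕ) : ℝ) ^ (-s)) ≤ c x) :
    Z s A ≤ ∑' x, c x := by
  choose f hf1 hf2 using h
  have hinj : Function.Injective (fun m : A => f m.1 m.2) := by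
    intro a b hab
    apply Subtype.ext
    rw [← hf1 a.1 a.2, ← hf1 b.1 b.2]
    exact congrArg g hab
  calc Z s A = ∑' n : A, ENNReal.ofReal (((n : ℕ) : ℝ) ^ (-s)) := rfl
    _ ≤ ∑' n : A, c (f n.1 n.2) := ENNReal.tsum_le_tsum fun n => hf2 n.1 n.2
    _ ≤ ∑' x, c x := ENNReal.tsum_comp_le_tsum_of_injective hinj c

theorem div_bound {N g q : ℕ} (hq : 2 ≤ q) (hg : 0 < g) (hg3 : g ≤ 3) (hN : q ^ 36 ≤ N) :
    q ^ 6 ≤ 3 * (N / g) := by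
  have h1 : q ^ 36 / 3 ≤ N / g := Nat.div_le_div hN hg3 hg.ne'
  have h2 : q ^ 36 ≤ 3 * (q ^ 36 / 3) + 2 := by omega
  have h3 : q ^ 6 + 2 ≤ q ^ 36 := by
    have h4 : (1 : ℕ) ≤ q ^ 6 := Nat.one_le_pow _ _ (by omega)
    calc q ^ 6 + 2 ≤ q ^ 6 * 4 := by omega
      _ ≤ q ^ 6 * q ^ 30 := by
          apply Nat.mul_le_mul_left
          calc 4 ≤ 2 ^ 30 := by norm_num
            _ ≤ q ^ 30 := Nat.pow_le_pow_left hq 30
      _ = q ^ 36 := by rw [← pow_add]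
  omega

theorem sub_pos' {q : ℕ} (hq : 2 ≤ q) (i : ℕ) (hi : i ≠ 0) : 1 ≤ q ^ i - 1 := by
  have : 2 ≤ q ^ i := by
    calc 2 ≤ q := hq
      _ ≤ q ^ i := Nat.le_self_pow hi q
  omega

theorem q_bound {q m : ℕ} (hq : 2 ≤ q)
    (h : m = q ^ 12 * (q ^ 8 + q ^ 4 + 1) * (q ^ 6 - 1) * (q ^ 2 - 1) ∨
      m = q ^ 6 * (q ^ 6 - 1) * (q ^ 2 - 1) ∨
      m = q ^ 24 * (q ^ 12 - 1) * (q ^ 8 - 1) * (q ^ 6 - 1) * (q ^ 2 - 1) ∨
      m = q ^ 36 * (q ^ 12 - 1) * (q ^ 9 - 1) * (q ^ 8 - 1) * (q ^ 6 - 1) * (q ^ 5 - 1) *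
        (q ^ 2 - 1) / Nat.gcd 3 (q - 1) ∨
      m = q ^ 36 * (q ^ 12 - 1) * (q ^ 9 + 1) * (q ^ 8 - 1) * (q ^ 6 - 1) * (q ^ 5 + 1) *
        (q ^ 2 - 1) / Nat.gcd 3 (q + 1) ∨
      m = q ^ 63 * (q ^ 18 - 1) * (q ^ 14 - 1) * (q ^ 12 - 1) * (q ^ 10 - 1) * (q ^ 8 - 1) *
        (q ^ 6 - 1) * (q ^ 2 - 1) / Nat.gcd 2 (q - 1) ∨
      m = q ^ 120 * (q ^ 30 - 1) * (q ^ 24 - 1) * (q ^ 20 - 1) * (q ^ 18 - 1) * (q ^ 14 - 1) *
        (q ^ 12 - 1) * (q ^ 8 - 1) * (q ^ 2 - 1)) : q ^ 6 ≤ 3 * m := by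
  have hq1 : 1 ≤ q := by omega
  have hs := fun i (hi : i ≠ 0) => sub_pos' hq i hi
  have hp : ∀ i, q ^ 6 ≤ q ^ (6 + i) := fun i => Nat.pow_le_pow_right hq1 (by omega)
  have g3 : ∀ x, 0 < Nat.gcd 3 x ∧ Nat.gcd 3 x ≤ 3 := fun x =>
    ⟨Nat.gcd_pos_of_pos_left _ (by norm_num), Nat.gcd_le_left _ (by norm_num)⟩
  have g2 : ∀ x, 0 < Nat.gcd 2 x ∧ Nat.gcd 2 x ≤ 3 := fun x =>
    ⟨Nat.gcd_pos_of_pos_left _ (by norm_num),
      (Nat.gcd_le_left _ (by norm_num)).trans (by norm_num)⟩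
  have mm : ∀ {x y z : ℕ}, x ≤ y → 1 ≤ z → x ≤ y * z := fun h1 h2 =>
    h1.trans (Nat.le_mul_of_pos_right _ h2)
  rcases h with h | h | h | h | h | h | h
  · have : q ^ 6 ≤ m := by
      rw [h]
      exact mm (mm (mm (hp 6) (by omega)) (hs 6 (by norm_num))) (hs 2 (by norm_num))
    omega
  · have : q ^ 6 ≤ m := by
      rw [h]
      exact mm (mm (hp 0) (hs 6 (by norm_num))) (hs 2 (by norm_num))
    omega
  · have : q ^ 6 ≤ m := by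
      rw [h]
      exact mm (mm (mm (mm (hp 18) (hs 12 (by norm_num))) (hs 8 (by norm_num)))
        (hs 6 (by norm_num))) (hs 2 (by norm_num))
    omega
  · rw [h]
    refine div_bound hq (g3 _).1 (g3 _).2 ?_
    exact mm (mm (mm (mm (mm (mm le_rfl (hs 12 (by norm_num))) (hs 9 (by norm_num)))
      (hs 8 (by norm_num))) (hs 6 (by norm_num))) (hs 5 (by norm_num))) (hs 2 (by norm_num))
  · rw [h]
    refine div_bound hq (g3 _).1 (g3 _).2 ?_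
    exact mm (mm (mm (mm (mm (mm le_rfl (hs 12 (by norm_num))) (by omega))
      (hs 8 (by norm_num))) (hs 6 (by norm_num))) (by omega)) (hs 2 (by norm_num))
  · rw [h]
    refine div_bound hq (g2 _).1 (g2 _).2 ?_
    have h36 : q ^ 36 ≤ q ^ 63 := Nat.pow_le_pow_right hq1 (by norm_num)
    exact mm (mm (mm (mm (mm (mm (mm h36 (hs 18 (by norm_num))) (hs 14 (by norm_num)))
      (hs 12 (by norm_num))) (hs 10 (by norm_num))) (hs 8 (by norm_num))) (hs 6 (by norm_num)))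
      (hs 2 (by norm_num))
  · have : q ^ 6 ≤ m := by
      rw [h]
      exact mm (mm (mm (mm (mm (mm (mm (mm (hp 114) (hs 30 (by norm_num))) (hs 24 (by norm_num)))
        (hs 20 (by norm_num))) (hs 18 (by norm_num))) (hs 14 (by norm_num))) (hs 12 (by norm_num)))
        (hs 8 (by norm_num))) (hs 2 (by norm_num))
    omega

/-- the seven forms -/
def ff (q : ℕ) : Fin 7 → ℕ
  | 0 => q ^ 12 * (q ^ 8 + q ^ 4 + 1) * (q ^ 6 - 1) * (q ^ 2 - 1)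
  | 1 => q ^ 6 * (q ^ 6 - 1) * (q ^ 2 - 1)
  | 2 => q ^ 24 * (q ^ 12 - 1) * (q ^ 8 - 1) * (q ^ 6 - 1) * (q ^ 2 - 1)
  | 3 => q ^ 36 * (q ^ 12 - 1) * (q ^ 9 - 1) * (q ^ 8 - 1) * (q ^ 6 - 1) * (q ^ 5 - 1) *
        (q ^ 2 - 1) / Nat.gcd 3 (q - 1)
  | 4 => q ^ 36 * (q ^ 12 - 1) * (q ^ 9 + 1) * (q ^ 8 - 1) * (q ^ 6 - 1) * (q ^ 5 + 1) *
        (q ^ 2 - 1) / Nat.gcd 3 (q + 1)
  | 5 => q ^ 63 * (q ^ 18 - 1) * (q ^ 14 - 1) * (q ^ 12 - 1) * (q ^ 10 - 1) * (q ^ 8 - 1) *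
        (q ^ 6 - 1) * (q ^ 2 - 1) / Nat.gcd 2 (q - 1)
  | 6 => q ^ 120 * (q ^ 30 - 1) * (q ^ 24 - 1) * (q ^ 20 - 1) * (q ^ 18 - 1) * (q ^ 14 - 1) *
        (q ^ 12 - 1) * (q ^ 8 - 1) * (q ^ 2 - 1)

theorem KOD_holds : S_KOD := by
  intro s hs
  have hs0 : 0 < s := by linarith
  set c : Fin 7 × ℕ → ENNReal := fun x => ENNReal.ofReal (((x.2 : ℝ) ^ 6 / 3) ^ (-s)) with hc
  have key : Z s exceptionalOrders ≤ ∑' x, c x := by
    refine Z_le_of_image s _ (fun x : Fin 7 × ℕ => ff x.2 x.1) c ?_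
    rintro m ⟨p, k, q, hp, hk, hq, hm⟩
    have hq2 : 2 ≤ q := by
      rw [hq]
      calc 2 ≤ p := hp.two_le
        _ ≤ p ^ k := Nat.le_self_pow (by omega) p
    have hb := q_bound hq2 hm
    have hb' : ((q : ℝ) ^ 6 / 3) ≤ m := by
      have : ((q ^ 6 : ℕ) : ℝ) ≤ ((3 * m : ℕ) : ℝ) := by exact_mod_cast hb
      push_cast at this
      linarith
    have hq0 : (0 : ℝ) < (q : ℝ) ^ 6 / 3 := by
      have : (0 : ℝ) < q := by exact_mod_cast (by omega : 0 < q)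
      positivity
    have hle : ENNReal.ofReal (((m : ℕ) : ℝ) ^ (-s)) ≤
        ENNReal.ofReal (((q : ℝ) ^ 6 / 3) ^ (-s)) :=
      ENNReal.ofReal_le_ofReal (Real.rpow_le_rpow_of_nonpos hq0 hb' (by linarith))
    rcases hm with h | h | h | h | h | h | h
    · exact ⟨(0, q), h.symm, hle⟩
    · exact ⟨(1, q), h.symm, hle⟩
    · exact ⟨(2, q), h.symm, hle⟩
    · exact ⟨(3, q), h.symm, hle⟩
    · exact ⟨(4, q), h.symm, hle⟩
    · exact ⟨(5, q), h.symm, hle⟩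
    · exact ⟨(6, q), h.symm, hle⟩
  refine lt_of_le_of_lt key ?_
  have hsum : Summable (fun q : ℕ => (((q : ℝ) ^ 6 / 3) ^ (-s))) := by
    have h1 : Summable (fun q : ℕ => (q : ℝ) ^ (-(6 * s))) :=
      Real.summable_nat_rpow.2 (by linarith)
    refine (h1.mul_left ((3 : ℝ) ^ s)).congr fun q => ?_
    rw [Real.div_rpow (by positivity) (by norm_num), ← Real.rpow_natCast, ← Real.rpow_mul (by positivity),
      Real.rpow_neg (by norm_num : (0 : ℝ) ≤ 3), div_inv_eq_mul, mul_comm]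
    congr 2
    push_cast
    ring
  have h7 : ∑' x, c x = ∑' _i : Fin 7, ∑' q : ℕ, ENNReal.ofReal (((q : ℝ) ^ 6 / 3) ^ (-s)) := by
    rw [ENNReal.tsum_prod']
  rw [h7, tsum_fintype, Finset.sum_const, Finset.card_univ, Fintype.card_fin]
  have h8 : ∑' q : ℕ, ENNReal.ofReal (((q : ℝ) ^ 6 / 3) ^ (-s)) < ⊤ := by
    rw [← ENNReal.ofReal_tsum_of_nonneg (fun q => by positivity) hsum]
    exact ENNReal.ofReal_lt_top
  rw [nsmul_eq_mul]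
  exact ENNReal.mul_lt_top (by simp) h8

end Pool.Agent.Helper13.HZ
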