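import Pool.Agent.Helper4.HZ.Goals

/-!
# MP_af40fb_al, project HZ, packet TRC
-/

namespace Pool.Agent.Helper13.HZ

open Pool.Agent.Helper4.HZ Matrix

variable {p : ℕ} [Fact p.Prime]

theorem ch2 (M : Matrix (Fin 2) (Fin 2) (ZMod p)) (hd : M.det = 1) :
    M * M = M.trace • M - 1 := by
  rw [Matrix.det_fin_two] at hd
  ext i j
  fin_cases i <;> fin_cases j <;>
    simp [Matrix.mul_apply, Fin.sum_univ_two, Matrix.trace_fin_two]
  · linear_combination (-1 : ZMod p) * hd
  · ring
  · ring
  · linear_combination (-1 : ZMod p) * hd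

/-- a square root of one in the field -/
theorem sq_one {r : ZMod p} (h : r ^ 2 = 1) : r = 1 ∨ r = -1 := sq_eq_one_iff.1 h

theorem natCast_ne {m : ℕ} (h0 : m ≠ 0) (h : m < p) : (m : ZMod p) ≠ 0 := by
  intro h1
  rw [ZMod.natCast_eq_zero_iff] at h1
  exact absurd (Nat.le_of_dvd (Nat.pos_of_ne_zero h0) h1) (by omega)

/-- the matrix part -/
theorem mat_part (hp : 7 < p) (M : Matrix (Fin 2) (Fin 2) (ZMod p)) (hd : M.det = 1)
    (h7 : M ^ 7 = 1) (h3 : (M ^ 3).trace = M.trace) : M = 1 := by
  have h2ne : (2 : ZMod p) ≠ 0 := by exact_mod_cast natCast_ne (p := p) (m := 2) (by norm_num) (by omega)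
  have h7ne : (7 : ZMod p) ≠ 0 := by exact_mod_cast natCast_ne (p := p) (m := 7) (by norm_num) (by omega)
  have hch := ch2 M hd
  set t := M.trace with ht
  have e2 : M ^ 2 = t • M - 1 := by rw [sq, hch]
  have e3 : M ^ 3 = (t ^ 2 - 1) • M - t • 1 := by
    rw [pow_succ, e2, sub_mul, smul_mul_assoc, hch, one_mul, smul_sub, smul_smul, sub_smul, one_smul,
      sq]
    abel
  have htr : t ^ 3 - 3 * t = t := by
    rw [e3, Matrix.trace_sub, Matrix.trace_smul, Matrix.trace_smul, Matrix.trace_one, ← ht,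
      Fintype.card_fin] at h3
    simp only [smul_eq_mul] at h3
    push_cast at h3
    linear_combination h3
  have hcases : t = 0 ∨ t = 2 ∨ t = -2 := by
    have h : t * ((t - 2) * (t + 2)) = 0 := by linear_combination htr
    rcases mul_eq_zero.1 h with h | h
    · exact Or.inl h
    · rcases mul_eq_zero.1 h with h | h
      · exact Or.inr (Or.inl (sub_eq_zero.1 h))
      · exact Or.inr (Or.inr (eq_neg_of_add_eq_zero_left h))
  have e6 : M ^ 7 = (M ^ 3) * (M ^ 3) * M := by
    rw [← pow_add, ← pow_succ]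
  rcases hcases with h | h | h
  · -- trace zero
    rw [h, zero_smul, zero_sub] at e2
    have e4 : M ^ 4 = 1 := by
      rw [show (4 : ℕ) = 2 * 2 by norm_num, pow_mul, e2]
      simp
    have e8 : M ^ 8 = M := by rw [pow_succ, h7, one_mul]
    rw [show (8 : ℕ) = 4 * 2 by norm_num, pow_mul, e4, one_pow] at e8
    exact e8.symm
  · -- trace two
    rw [h] at e2 e3 hch
    have e4 : M ^ 3 = (3 : ZMod p) • M - (2 : ZMod p) • 1 := by
      rw [e3]
      norm_num
    have e5 : M ^ 7 = (7 : ZMod p) • M - (6 : ZMod p) • 1 := by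
      rw [e6, e4]
      ext i j
      have e : ((3 : ZMod p) • M - (2 : ZMod p) • 1) * ((3 : ZMod p) • M - (2 : ZMod p) • 1) * M =
          (9 : ZMod p) • (M * M * M) - (12 : ZMod p) • (M * M) + (4 : ZMod p) • M := by
        simp only [sub_mul, mul_sub, smul_mul_assoc, mul_smul_comm, one_mul, mul_one, smul_sub,
          smul_smul]
        have : (12 : ZMod p) = 3 * 2 + 2 * 3 := by norm_num
        rw [this, add_smul]
        norm_num
        abel
      have e' : M * M * M = (3 : ZMod p) • M - (2 : ZMod p) • 1 := by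
        rw [← e4]
        simp [pow_succ]
      rw [e, e', hch]
      simp
      ring
    rw [h7] at e5
    have e7 : (7 : ZMod p) • (M - 1) = 0 := by
      rw [smul_sub]
      have : (7 : ZMod p) • (1 : Matrix (Fin 2) (Fin 2) (ZMod p)) = (6 : ZMod p) • 1 + 1 := by
        rw [show (7 : ZMod p) = 6 + 1 by norm_num, add_smul, one_smul]
      rw [this, sub_eq_iff_eq_add.1 e5.symm]
      abel
    rcases smul_eq_zero.1 e7 with h8 | h8
    · exact absurd h8 h7ne
    · exact sub_eq_zero.1 h8
  · -- trace minus two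
    exfalso
    rw [h] at e2 e3 hch
    have e4 : M ^ 3 = (3 : ZMod p) • M + (2 : ZMod p) • 1 := by
      rw [e3]
      norm_num
    have e5 : M ^ 7 = (7 : ZMod p) • M + (6 : ZMod p) • 1 := by
      rw [e6, e4]
      ext i j
      have e : ((3 : ZMod p) • M + (2 : ZMod p) • 1) * ((3 : ZMod p) • M + (2 : ZMod p) • 1) * M =
          (9 : ZMod p) • (M * M * M) + (12 : ZMod p) • (M * M) + (4 : ZMod p) • M := by
        simp only [add_mul, mul_add, smul_mul_assoc, mul_smul_comm, one_mul, mul_one, smul_add,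
          smul_smul]
        have : (12 : ZMod p) = 3 * 2 + 2 * 3 := by norm_num
        rw [this, add_smul]
        norm_num
        abel
      have e' : M * M * M = (3 : ZMod p) • M + (2 : ZMod p) • 1 := by
        rw [← e4]
        simp [pow_succ]
      rw [e, e', hch]
      simp
      ring
    rw [h7] at e5
    have e8 := congrArg Matrix.trace e5
    rw [Matrix.trace_add, Matrix.trace_smul, Matrix.trace_smul, Matrix.trace_one, ← ht, h,
      Fintype.card_fin] at e8
    simp only [smul_eq_mul] at e8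
    push_cast at e8
    have : (2 : ZMod p) * 2 = 0 := by linear_combination e8
    rcases mul_eq_zero.1 this with h9 | h9
    · exact h2ne h9
    · exact h2ne h9

theorem TRC_holds (hA : S_AUC) : S_TRC := by
  intro p _ hp φ z i hz7 hz1 hi hφ
  obtain ⟨A, hA0⟩ := QuotientGroup.mk_surjective z
  -- normalise the lift
  have hlift : ∃ A : Matrix.SpecialLinearGroup (Fin 2) (ZMod p),
      (QuotientGroup.mk A : PSL2 p) = z ∧ A ^ 7 = 1 := by
    have h1 : A ^ 7 ∈ Subgroup.center (Matrix.SpecialLinearGroup (Fin 2) (ZMod p)) := by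
      rw [← QuotientGroup.eq_one_iff]
      have : ((A ^ 7 : Matrix.SpecialLinearGroup (Fin 2) (ZMod p)) : PSL2 p) = (A : PSL2 p) ^ 7 :=
        rfl
      rw [this]
      show (QuotientGroup.mk A : PSL2 p) ^ 7 = 1
      rw [hA0, hz7]
    obtain ⟨r, hr, hrA⟩ := Matrix.SpecialLinearGroup.mem_center_iff.1 h1
    rw [Fintype.card_fin] at hr
    rcases sq_one hr with h | h
    · refine ⟨A, hA0, Subtype.ext ?_⟩
      rw [← hrA, h]
      simp
    · refine ⟨-A, ?_, Subtype.ext ?_⟩
      · rw [← hA0, QuotientGroup.eq, Matrix.SpecialLinearGroup.mem_center_iff]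
        refine ⟨-1, by simp, ?_⟩
        have e : (-A)⁻¹ * A = -1 := by
          have : (-A) * (-1) = A := by simp
          rw [inv_mul_eq_iff_eq_mul, this]
        rw [e]
        ext a b
        fin_cases a <;> fin_cases b <;> simp
      · have e : (-A) ^ 7 = - A ^ 7 := by
          rw [Odd.neg_pow (by decide)]
        rw [e]
        simp only [Matrix.SpecialLinearGroup.coe_neg]
        rw [← hrA, h]
        simp
  obtain ⟨B, hB, hB7⟩ := hlift
  have hBM : B.1 ^ 7 = 1 := by
    have := congrArg Subtype.val hB7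
    simpa using this
  obtain ⟨g, hg⟩ := hA p φ
  set G : Matrix (Fin 2) (Fin 2) (ZMod p) := (g : Matrix (Fin 2) (Fin 2) (ZMod p)) with hG
  set G' : Matrix (Fin 2) (Fin 2) (ZMod p) := ((g⁻¹ : Matrix.GeneralLinearGroup (Fin 2) (ZMod p)) :
    Matrix (Fin 2) (Fin 2) (ZMod p)) with hG'
  have hGG : G' * G = 1 := by
    rw [hG, hG', ← Units.val_mul, inv_mul_cancel, Units.val_one]
  have hGG2 : G * G' = 1 := by
    rw [hG, hG', ← Units.val_mul, mul_inv_cancel, Units.val_one]
  have hdet : (G * B.1 * G').det = 1 := by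
    rw [Matrix.det_mul, Matrix.det_mul, B.2, mul_one, ← Matrix.det_mul, hGG2, Matrix.det_one]
  set C : Matrix.SpecialLinearGroup (Fin 2) (ZMod p) := ⟨G * B.1 * G', hdet⟩ with hC
  have h1 : φ (QuotientGroup.mk B) = QuotientGroup.mk C := by
    apply hg
    show G * B.1 = G * B.1 * G' * G
    rw [mul_assoc (G * B.1), hGG, mul_one]
  have hC7 : C.1 ^ 7 = 1 := by
    have : ∀ k : ℕ, (G * B.1 * G') ^ k = G * B.1 ^ k * G' := by
      intro k
      induction k with
      | zero => rw [pow_zero, pow_zero, mul_one, hGG2]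
      | succ k ih =>
        rw [pow_succ, ih, pow_succ]
        have : G * B.1 ^ k * G' * (G * B.1 * G') = G * B.1 ^ k * (G' * G) * B.1 * G' := by
          simp only [mul_assoc]
        rw [this, hGG, mul_one]
        simp only [mul_assoc]
    rw [hC]
    show (G * B.1 * G') ^ 7 = 1
    rw [this, hBM, mul_one, hGG2]
  have h2 : (QuotientGroup.mk C : PSL2 p) = QuotientGroup.mk (B ^ i) := by
    rw [← h1, hB, hφ, ← hB]
    rfl
  rw [QuotientGroup.eq, Matrix.SpecialLinearGroup.mem_center_iff] at h2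
  obtain ⟨δ, hδ, hδ2⟩ := h2
  have h3 : B.1 ^ i = δ • C.1 := by
    have e : B ^ i = C * (C⁻¹ * B ^ i) := by group
    have e2 := congrArg Subtype.val e
    have e3 : (C * (C⁻¹ * B ^ i)).1 = C.1 * (C⁻¹ * B ^ i).1 := rfl
    have e4 : (B ^ i).1 = B.1 ^ i := by simp
    rw [e3, e4] at e2
    rw [e2]
    have e5 : (C⁻¹ * B ^ i).1 = Matrix.scalar (Fin 2) δ := hδ2.symm
    rw [e5]
    ext a b
    simp [Matrix.mul_diagonal, mul_comm]
  have hδ1 : δ = 1 := by
    have e1 : (B.1 ^ i) ^ 7 = 1 := by rw [← pow_mul, mul_comm, pow_mul, hBM, one_pow]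
    rw [h3, smul_pow, hC7] at e1
    have e2 : δ ^ 7 = δ := by
      rw [Fintype.card_fin] at hδ
      calc δ ^ 7 = (δ ^ 2) ^ 3 * δ := by ring
        _ = δ := by rw [hδ]; ring
    rw [e2] at e1
    have e3 := congrFun (congrFun e1 0) 0
    simpa using e3
  rw [hδ1, one_smul] at h3
  have hi3 : B.1 ^ i = B.1 ^ 3 := by
    rw [← Nat.div_add_mod i 7, hi, pow_add, pow_mul, hBM, one_pow, one_mul]
  have htr : (B.1 ^ 3).trace = B.1.trace := by
    rw [← hi3, h3]
    show (G * B.1 * G').trace = _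
    rw [Matrix.trace_mul_comm, ← mul_assoc, hGG, one_mul]
  have hB1 := mat_part hp B.1 B.2 hBM htr
  apply hz1
  rw [← hB]
  have : B = 1 := Subtype.ext hB1
  rw [this]
  rfl

end Pool.Agent.Helper13.HZ
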